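import Pool.Agent.ASE.Stmts6
import Pool.Agent.Helper45_ASO.HSM
import Pool.Agent.Helper25_K9.ROT

/-!
# Squad ASE, row HSE: the sums over the block
-/

set_option autoImplicit false
set_option linter.unusedSectionVars false

open scoped BigOperators

noncomputable section

namespace Pool.Agent.PP.SE.H66

open Pool.Agent.Helper51_AWC Pool.Agent.Helper79_WRA Pool.Agent.PP Pool.Agent.PP.KF
open Pool.Agent.PP.K9 Pool.Agent.PP.K9.H97 Pool.Agent.PP.H75 Pool.Agent.PP.T3 Pool.Agent.PP.SO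
open Pool.Agent.PP.SD

attribute [local instance] Ideal.Quotient.field

section mn

variable {V₀ G : Type} [CommGroup V₀] [Group G] {M : Ideal (integralClosure ℤ ℂ)} [M.IsMaximal]

theorem mnl_bot (E₀ : Subgroup (MulAut V₀)) (B : Bk (FF M) V₀ G) (c : V₀) :
    mnl E₀ B c ⊥ = fun g => (kE E₀ c : ℂ) * fc B ⊥ c g := by
  funext g
  unfold mnl
  rw [if_pos bot_le]

theorem cv_mnl [Finite G] (E₀ : Subgroup (MulAut V₀)) (B : Bk (FF M) V₀ G) (c : V₀) (χ : G → ℂ) :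
    cv (mnl E₀ B c ⊥) χ = (kE E₀ c : ℂ) * cv (fc B ⊥ c) χ := by
  have := Fintype.ofFinite G
  rw [mnl_bot]
  unfold cv
  rw [finsum_eq_sum_of_fintype, finsum_eq_sum_of_fintype, mul_div_assoc', Finset.mul_sum]
  congr 1
  exact Finset.sum_congr rfl fun g _ => by ring

theorem LL_mnl [Finite G] (E₀ : Subgroup (MulAut V₀)) (B : Bk (FF M) V₀ G) (c : V₀) :
    LL B (mnl E₀ B c ⊥) = (kE E₀ c : ℂ) * L1 B c := by
  have := Fintype.ofFinite G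
  have hfin := K9.H25.irrE_finite M B.e
  unfold LL L1
  rw [finsum_mem_eq_finite_toFinset_sum _ hfin, finsum_mem_eq_finite_toFinset_sum _ hfin,
    Finset.mul_sum]
  exact Finset.sum_congr rfl fun χ _ => cv_mnl E₀ B c χ

theorem NN_mnl [Finite G] (E₀ : Subgroup (MulAut V₀)) (B : Bk (FF M) V₀ G) (a : G → ℂ) (d : V₀) :
    NN B a (mnl E₀ B d ⊥) = (kE E₀ d : ℂ) * NN B a (fc B ⊥ d) := by
  have := Fintype.ofFinite G
  have hfin := K9.H25.irrE_finite M B.e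
  unfold NN
  rw [finsum_mem_eq_finite_toFinset_sum _ hfin, finsum_mem_eq_finite_toFinset_sum _ hfin,
    Finset.mul_sum]
  exact Finset.sum_congr rfl fun χ _ => by rw [cv_mnl]; ring

theorem NN_comm (B : Bk (FF M) V₀ G) (a b : G → ℂ) : NN B a b = NN B b a := by
  unfold NN
  exact finsum_mem_congr rfl fun χ _ => mul_comm _ _

theorem NN_fc (B : Bk (FF M) V₀ G) (c d : V₀) : NN B (fc B ⊥ c) (fc B ⊥ d) = L2 B c d := rfl

end mn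

/-- HSE -/
theorem hse (hHsg : HsgStmt) (hEtq : EtqStmt) (hEts : EtsStmt) (hL12 : HL12Stmt)
    (hIxe : HIxeStmt) : HseStmt := by
  intro ℓ _ M _ hM hl2 V₀ G _ _ _ _ E₀ hq B hB D hR
  classical
  have hℓ : ℓ.Prime := Fact.out
  have hSb := hB.toSb
  have := Fintype.ofFinite V₀
  have hℓQ : (ℓ : ℚ) ≠ 0 := by exact_mod_cast hℓ.ne_zero
  obtain ⟨hs1, hs2⟩ := hHsg ℓ M hM V₀ G E₀ hq.ex hq.cd B hSb
  obtain ⟨l1, l2, l1p, -, -, -, l2s, -, l11⟩ := hL12 ℓ M hM V₀ hq.ex E₀ G B hSb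
  obtain ⟨-, -, -, hix⟩ := hIxe ℓ M hM V₀ E₀ G B hSb
  choose q1 hq1m hq1 using l1
  choose q2 hq2m hq2 using l2
  -- stabilisers
  have hkp : ∀ (c : V₀) (j : ℕ), ¬ ℓ ∣ j → kE E₀ (c ^ j) = kE E₀ c := by
    intro c j hj
    unfold kE
    rw [H45.Es_pow]
    rw [hq.cd]
    exact Nat.Coprime.pow_left 2 ((hℓ.coprime_iff_not_dvd).2 hj)
  have hnt : ∀ t ∈ Finset.Icc 1 (ℓ - 1), ¬ ℓ ∣ t := by
    intro t ht hd
    have ht' := Finset.mem_Icc.1 ht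
    have h3 := Nat.le_of_dvd (by omega) hd
    have := hℓ.pos
    omega
  have hkn : ∀ c : V₀, (kE E₀ c : ℚ) * nE E₀ c = Nat.card E₀ := by
    intro c
    obtain ⟨-, h, -, -⟩ := hix c
    rw [mul_comm]
    exact_mod_cast h
  have hk1 : kE E₀ 1 = Nat.card E₀ := by
    unfold kE
    have h1 : Es E₀ (1 : V₀) = E₀ := by
      refine Subgroup.ext fun σ => ?_
      show σ ∈ E₀ ∧ σ 1 = 1 ↔ σ ∈ E₀
      exact ⟨fun h => h.1, fun h => ⟨h, map_one _⟩⟩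
    rw [h1]
  have hRLb : ∀ a ∈ RL ℓ E₀, a ≠ ⊥ := by
    intro a ha h
    have h1 : Nat.card a = ℓ := ha.1
    rw [h, Subgroup.card_bot] at h1
    exact hℓ.one_lt.ne h1
  have hz : ∀ (a : Subgroup V₀) (κ : V₀), ∃ q : ℚ, a ∈ RL ℓ E₀ → κ ∈ a →
      LL B (etl B D a κ ⊥) = (q : ℂ) := by
    intro a κ
    by_cases h : a ∈ RL ℓ E₀ ∧ κ ∈ a
    · obtain ⟨q, hq'⟩ := (hEtq ℓ M hM hl2 V₀ G E₀ hq B hSb D hR a (hRLb a h.1) κ h.2).1
      exact ⟨q, fun _ _ => hq'⟩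
    · exact ⟨0, fun h1 h2 => absurd ⟨h1, h2⟩ h⟩
  have hy : ∀ (a : Subgroup V₀) (κ d : V₀), ∃ q : ℚ, a ∈ RL ℓ E₀ → κ ∈ a →
      NN B (etl B D a κ ⊥) (fc B ⊥ d) = (q : ℂ) := by
    intro a κ d
    by_cases h : a ∈ RL ℓ E₀ ∧ κ ∈ a
    · obtain ⟨q, hq'⟩ := (hEtq ℓ M hM hl2 V₀ G E₀ hq B hSb D hR a (hRLb a h.1) κ h.2).2 d
      exact ⟨q, fun _ _ => hq'⟩
    · exact ⟨0, fun h1 h2 => absurd ⟨h1, h2⟩ h⟩
  choose z hz using hz
  choose y hy using hy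
  have hy' : ∀ (a : Subgroup V₀) (κ d : V₀), a ∈ RL ℓ E₀ → κ ∈ a →
      NN B (etl B D a κ ⊥) (mnl E₀ B d ⊥) = (((kE E₀ d : ℚ) * y a κ d : ℚ) : ℂ) := by
    intro a κ d ha hκ
    rw [NN_mnl, hy a κ d ha hκ]
    push_cast
    ring
  have hdiv : ∀ (x : ℚ) (n : ℕ), (x : ℂ) / (ℓ : ℂ) ^ n ∈ RM M → ∃ q ∈ SOR.Rl ℓ,
      x = (ℓ : ℚ) ^ n * q := by
    intro x n h
    refine ⟨x / (ℓ : ℚ) ^ n, H45.rat_RM hM ?_, ?_⟩
    · push_cast
      exact h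
    · field_simp
  refine ⟨fun c => (kE E₀ c : ℚ) * q1 c, fun c d => (kE E₀ c : ℚ) * kE E₀ d * q2 c d, z,
    fun a κ d => (kE E₀ d : ℚ) * y a κ d, ⟨?_, ?_, ?_⟩, ?_, ?_, ?_, ?_⟩
  · intro c _
    refine ⟨?_, (SOR.Rl ℓ).mul_mem (natCast_mem _ _) (hq1m c)⟩
    rw [LL_mnl, hq1 c]
    push_cast
    rfl
  · intro c d _ _
    have h1 : NN B (mnl E₀ B c ⊥) (mnl E₀ B d ⊥) =
        (((kE E₀ c : ℚ) * kE E₀ d * q2 c d : ℚ) : ℂ) := by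
      rw [NN_mnl, NN_comm, NN_mnl, NN_comm, NN_fc, hq2 c d]
      push_cast
      ring
    refine ⟨h1, ?_, (SOR.Rl ℓ).mul_mem ((SOR.Rl ℓ).mul_mem (natCast_mem _ _)
      (natCast_mem _ _)) (hq2m c d)⟩
    rw [NN_comm]
    exact h1
  · intro c j hj
    have h1 : q1 (c ^ j) = q1 c := by
      have h2 := l1p c j hj
      rw [hq1, hq1] at h2
      exact_mod_cast h2
    beta_reduce
    rw [hkp c j hj, h1]
  · intro a ha κ hκ
    obtain ⟨e1, e2, e3⟩ := hEts ℓ M hM hl2 V₀ G E₀ hq B hSb D hR a ha κ hκ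
    rw [hz a κ ha hκ] at e1 e2
    rw [hz a 1 ha (Subgroup.one_mem a)] at e2
    refine ⟨hz a κ ha hκ, ?_, ?_, ?_⟩
    · obtain ⟨q, hq1, hq2⟩ := hdiv (z a κ) 1 (by rw [pow_one]; exact e1)
      exact ⟨q, hq1, by rw [hq2, pow_one]⟩
    · refine hdiv (z a κ - z a 1) 2 ?_
      push_cast
      exact e2
    · intro d hd
      obtain ⟨e4, -⟩ := e3 d hd
      refine ⟨hy' a κ d ha hκ, by rw [NN_comm]; exact hy' a κ d ha hκ, ?_⟩
      rw [hy' a κ d ha hκ] at e4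
      obtain ⟨q, hq1, hq2⟩ := hdiv ((kE E₀ d : ℚ) * y a κ d) 1 (by rw [pow_one]; exact e4)
      exact ⟨q, hq1, by rw [pow_one] at hq2; exact hq2⟩
  · intro a ha κ hκ d hd
    obtain ⟨-, -, e3⟩ := hEts ℓ M hM hl2 V₀ G E₀ hq B hSb D hR a ha κ hκ
    obtain ⟨-, e5⟩ := e3 d hd
    refine hdiv _ 2 ?_
    have h1 : ((∑ t ∈ Finset.Icc 1 (ℓ - 1), ∑ s ∈ Finset.Icc 1 (ℓ - 1),
        (kE E₀ (d ^ s) : ℚ) * y a (κ ^ t) (d ^ s) - Nat.card E₀ * z a 1 : ℚ) : ℂ) =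
        ∑ t ∈ Finset.Icc 1 (ℓ - 1), ∑ s ∈ Finset.Icc 1 (ℓ - 1),
          NN B (etl B D a (κ ^ t) ⊥) (mnl E₀ B (d ^ s) ⊥) -
            Nat.card E₀ * LL B (etl B D a 1 ⊥) := by
      rw [hz a 1 ha (Subgroup.one_mem a), Rat.cast_sub, Rat.cast_sum, Rat.cast_mul,
        Rat.cast_natCast]
      congr 1
      refine Finset.sum_congr rfl fun t _ => ?_
      rw [Rat.cast_sum]
      refine Finset.sum_congr rfl fun s _ => ?_
      exact (hy' a (κ ^ t) (d ^ s) ha (a.pow_mem hκ t)).symm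
    rw [h1]
    exact e5
  · intro c d hc hd
    obtain ⟨q, hqm, hq'⟩ := hs1 c d hc hd
    have h1 : ∑ t ∈ Finset.Icc 1 (ℓ - 1), ∑ s ∈ Finset.Icc 1 (ℓ - 1), q2 (c ^ t) (d ^ s) +
        nE E₀ d * ((ℓ - 1) * q1 c) + nE E₀ c * ((ℓ - 1) * q1 d) +
        nE E₀ c * nE E₀ d * (IrrE M B.e).ncard = ℓ ^ 2 * q := by
      have e1 : ∀ c : V₀, ∑ t ∈ Finset.Icc 1 (ℓ - 1), L1 B (c ^ t) =
          (((ℓ - 1) * q1 c : ℚ) : ℂ) := by
        intro c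
        have h2 : ∀ t ∈ Finset.Icc 1 (ℓ - 1), L1 B (c ^ t) = L1 B c := fun t ht =>
          l1p c t (hnt t ht)
        rw [Finset.sum_congr rfl h2, Finset.sum_const, Nat.card_Icc, Nat.add_sub_cancel,
          nsmul_eq_mul, hq1 c, Nat.cast_sub hℓ.one_lt.le]
        push_cast
        ring
      have e2 : ∑ t ∈ Finset.Icc 1 (ℓ - 1), ∑ s ∈ Finset.Icc 1 (ℓ - 1), L2 B (c ^ t) (d ^ s) =
          ((∑ t ∈ Finset.Icc 1 (ℓ - 1), ∑ s ∈ Finset.Icc 1 (ℓ - 1),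
            q2 (c ^ t) (d ^ s) : ℚ) : ℂ) := by
        rw [Rat.cast_sum]
        refine Finset.sum_congr rfl fun t _ => ?_
        rw [Rat.cast_sum]
        exact Finset.sum_congr rfl fun s _ => hq2 _ _
      rw [e1 c, e1 d, e2] at hq'
      have h3 : ((∑ t ∈ Finset.Icc 1 (ℓ - 1), ∑ s ∈ Finset.Icc 1 (ℓ - 1),
          q2 (c ^ t) (d ^ s) + nE E₀ d * ((ℓ - 1) * q1 c) + nE E₀ c * ((ℓ - 1) * q1 d) +
          nE E₀ c * nE E₀ d * (IrrE M B.e).ncard : ℚ) : ℂ) = ((ℓ ^ 2 * q : ℚ) : ℂ) := by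
        rw [← hq']
        push_cast
        ring
      exact_mod_cast h3
    refine ⟨(kE E₀ c : ℚ) * kE E₀ d * q, (SOR.Rl ℓ).mul_mem ((SOR.Rl ℓ).mul_mem
      (natCast_mem _ _) (natCast_mem _ _)) hqm, ?_⟩
    have e3 : ∑ t ∈ Finset.Icc 1 (ℓ - 1), ∑ s ∈ Finset.Icc 1 (ℓ - 1),
        (kE E₀ (c ^ t) : ℚ) * kE E₀ (d ^ s) * q2 (c ^ t) (d ^ s) =
        (kE E₀ c : ℚ) * kE E₀ d * ∑ t ∈ Finset.Icc 1 (ℓ - 1), ∑ s ∈ Finset.Icc 1 (ℓ - 1),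
          q2 (c ^ t) (d ^ s) := by
      rw [Finset.mul_sum]
      refine Finset.sum_congr rfl fun t ht => ?_
      rw [Finset.mul_sum]
      refine Finset.sum_congr rfl fun s hs => ?_
      rw [hkp c t (hnt t ht), hkp d s (hnt s hs)]
    have e4 : (ℓ : ℚ) ^ 2 * ((kE E₀ c : ℚ) * kE E₀ d * q) =
        (kE E₀ c : ℚ) * kE E₀ d * (ℓ ^ 2 * q) := by ring
    beta_reduce
    rw [e3, e4, ← h1, ← hkn c]
    have e5 : (kE E₀ c : ℚ) * nE E₀ c = kE E₀ d * nE E₀ d := by rw [hkn, hkn]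
    linear_combination ((ℓ - 1 : ℚ) * (kE E₀ c * q1 c) + (kE E₀ c : ℚ) * nE E₀ c * (IrrE M B.e).ncard) * e5
  · obtain ⟨q, hqm, hq'⟩ := hs2
    refine ⟨q, hqm, ?_⟩
    have e1 : ∑ᶠ c : V₀, (Nat.card (Es E₀ c) : ℂ) * L1 B c =
        ((∑ c : V₀, (kE E₀ c : ℚ) * q1 c : ℚ) : ℂ) := by
      rw [finsum_eq_sum_of_fintype, Rat.cast_sum]
      refine Finset.sum_congr rfl fun c _ => ?_
      rw [hq1 c, Rat.cast_mul, Rat.cast_natCast]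
      rfl
    rw [e1] at hq'
    have e2 : ∑ c : V₀, (kE E₀ c : ℚ) * q1 c = ℓ ^ 2 * q := by exact_mod_cast hq'
    have e3 : q1 1 = (IrrE M B.e).ncard := by
      have h2 := hq1 1
      rw [l11] at h2
      exact_mod_cast h2.symm
    have e4 : ∑ᶠ c ∈ {c : V₀ | c ≠ 1}, (kE E₀ c : ℚ) * q1 c =
        ∑ c ∈ Finset.univ.erase (1 : V₀), (kE E₀ c : ℚ) * q1 c := by
      rw [finsum_mem_eq_finite_toFinset_sum _ (Set.toFinite {c : V₀ | c ≠ 1})]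
      refine Finset.sum_congr ?_ fun _ _ => rfl
      ext c
      simp
    rw [e4, ← e2, ← Finset.sum_erase_add _ _ (Finset.mem_univ (1 : V₀)), hk1, e3]

end Pool.Agent.PP.SE.H66
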