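import Pool.Agent.ASE.DefsE
import Pool.Agent.Helper32_ASD.RTZ
import Pool.Agent.Helper66_ASE.UNX

/-!
# Squad ASE, block R: the relation for the triples, for all labels at the same time
-/

set_option autoImplicit false
set_option linter.unusedSectionVars false

open scoped BigOperators

noncomputable section

namespace Pool.Agent.PP.SE.H66

open Pool.Agent.Helper51_AWC Pool.Agent.Helper79_WRA Pool.Agent.PP Pool.Agent.PP.KF
open Pool.Agent.PP.K9 Pool.Agent.PP.K9.H97 Pool.Agent.PP.H75 Pool.Agent.PP.T3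
open Pool.Agent.PP.SO Pool.Agent.PP.SO.H70 Pool.Agent.PP.SD.H32
open Pool.Agent.SOR.H32 (Phi Psi al be bf Ls Lt mu_one mu_zero mu_Ls mu_Lt al_zero be_zero
  al_spec bf_spec bf_nu)
open Pool.Agent.SOR.H66E (Ps0 Mf Cd psi_eq)

/-- the number of a set of elements of `Z × P` -/
abbrev mu {P : Type} [CommGroup P] (R : Subring ℚ) (n : ℕ) (r : P → ℚ)
    (U : Set (SOR.L1 n P)) : ℚ := SOR.H32.mu R n r U

section vals

variable {P : Type} [CommGroup P] {R : Subring ℚ} {n : ℕ} {r₁ r₂ : P → ℚ}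

theorem ps0_pos {Λ : Set (SOR.L2 n P)} (h : Cd R n r₁ Λ) : Ps0 R n r₁ r₂ Λ =
    -((mu R n r₂ (Ls n Λ) - al R n r₂ (mu R n r₂ (Lt n Λ)) Λ) *
      (bf R n r₁ (mu R n r₁ (Ls n Λ)) (mu R n r₁ (Lt n Λ)) Λ - mu R n r₁ (Lt n Λ))) -
      mu R n r₁ (Lt n Λ) * mu R n r₂ (Ls n Λ) - mu R n r₁ (Ls n Λ) * mu R n r₂ (Lt n Λ) := by
  unfold Ps0
  rw [if_pos h]

theorem mf_pos {r : P → ℚ} {Λ : Set (SOR.L2 n P)} (h : Cd R n r₁ Λ) :
    Mf R n r₁ r Λ = mu R n r (Ls n Λ) := by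
  unfold Mf
  rw [if_pos h]

theorem mf_zero {r : P → ℚ} {Λ : Set (SOR.L2 n P)} (h : mu R n r (Ls n Λ) = 0) :
    Mf R n r₁ r Λ = 0 := by
  unfold Mf
  split_ifs
  · exact h
  · rfl

/-- the value of `Ps0` if `bf` is the second number -/
theorem ps0_bf {Λ : Set (SOR.L2 n P)} (h : Cd R n r₁ Λ) (h0 : ∀ p, r₁ p ∈ R → r₁ p = 0)
    (hb : ∀ (k l : ℤ) (p : P), (Multiplicative.ofAdd (k : ZMod n),
      Multiplicative.ofAdd (l : ZMod n), p) ∈ Λ →
      r₁ p - k * mu R n r₁ (Ls n Λ) - l * mu R n r₁ (Lt n Λ) ∈ R) :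
    Ps0 R n r₁ r₂ Λ =
      - (mu R n r₁ (Lt n Λ) * mu R n r₂ (Ls n Λ) + mu R n r₁ (Ls n Λ) * mu R n r₂ (Lt n Λ)) := by
  have e : bf R n r₁ (mu R n r₁ (Ls n Λ)) (mu R n r₁ (Lt n Λ)) Λ = mu R n r₁ (Lt n Λ) :=
    bf_nu (fun h1 => mu_Lt h0 h1) hb
  rw [ps0_pos h, e]
  ring

end vals

/-- RTE -/
theorem rte (hlex : SOR.LexStmt) (hxsg : SOR.XsgStmt) (hBrx : SOR.BrxStmt)
    (ℓ : ℕ) [Fact ℓ.Prime] (V₀ : Type) [CommGroup V₀] [Finite V₀]
    (hexp : ∀ v : V₀, v ^ ℓ = 1) (n : ℕ) (ρ₁ ρ₂ : V₀ → ZMod ℓ) (hn : ∃ r, 0 < r ∧ n = ℓ ^ r)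
    (hρ₁ : Hm ρ₁) (hρ₂ : Hm ρ₂) (x₁ x₂ : V₀ → ℤ) (hx₁ : Lf ρ₁ x₁) (hx₂ : Lf ρ₂ x₂) :
    ∃ (F₁₃ Ψ M₁ M₂ : Set (SO.SS n V₀) → ℚ) (K : Set (Fin n × V₀ × V₀) → ℚ),
      FE ℓ n ρ₁ ρ₂ x₁ x₂ F₁₃ Ψ M₁ M₂ K ∧
      ∀ (kc kd : V₀) (G : Type) [Group G] [Finite G] (m : ℕ) (ι : V₀ →* G),
        Function.Injective ι → PE ℓ n m G →
        Rel ℓ n m ι kc kd F₁₃ (F12 ℓ x₁ x₂ Ψ M₁ M₂ K kc kd) := by
  classical
  obtain ⟨r, hr, hnr⟩ := hn
  have hp : ℓ.Prime := Fact.out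
  have hp0 : (ℓ : ℚ) ≠ 0 := by exact_mod_cast hp.ne_zero
  have hn1 : 1 < n := by
    rw [hnr]
    exact Nat.one_lt_pow hr.ne' hp.one_lt
  have hln : ℓ ∣ n := by
    rw [hnr]
    exact dvd_pow_self _ hr.ne'
  have hpg : IsPGroup ℓ (V₀ × V₀) := fun v => ⟨1, by
    rw [pow_one]
    exact Prod.ext (hexp _) (hexp _)⟩
  obtain ⟨r₁, hr₁⟩ : ∃ r₁ : V₀ × V₀ → ℚ, r₁ = fun p => (x₁ p.1 : ℚ) / ℓ := ⟨_, rfl⟩
  obtain ⟨r₂, hr₂⟩ : ∃ r₂ : V₀ × V₀ → ℚ, r₂ = fun p => (x₂ p.2 : ℚ) / ℓ := ⟨_, rfl⟩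
  have hrel := SOR.H66E.rel hlex hxsg ℓ r (V₀ × V₀) hpg r₁ r₂
    (fun p p' => by rw [hr₁]; exact lf_add hρ₁ hx₁ _ _)
    (fun p p' => by rw [hr₂]; exact lf_add hρ₂ hx₂ _ _)
    (fun p => by rw [hr₁]; exact lf_pow hr _) (fun p => by rw [hr₂]; exact lf_pow hr _)
    (fun p h => by rw [hr₁] at h ⊢; exact lf_zero hx₁ _ h)
    (fun p h => by rw [hr₂] at h ⊢; exact lf_zero hx₂ _ h)
  have h0₁ : ∀ p, r₁ p ∈ SOR.Rl ℓ → r₁ p = 0 := fun p h => by
    rw [hr₁] at h ⊢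
    exact lf_zero hx₁ _ h
  have h0₂ : ∀ p, r₂ p ∈ SOR.Rl ℓ → r₂ p = 0 := fun p h => by
    rw [hr₂] at h ⊢
    exact lf_zero hx₂ _ h
  rw [← hnr] at hrel
  have hz : ∀ v : V₀ × V₀, ρ₁ v.1 = 0 → r₁ v ∈ SOR.Rl ℓ := fun v h => by
    rw [hr₁]
    exact (lf_mem hx₁ v.1).2 h
  have hz' : ∀ v : V₀ × V₀, ρ₂ v.2 = 0 → r₂ v ∈ SOR.Rl ℓ := fun v h => by
    rw [hr₂]
    exact (lf_mem hx₂ v.2).2 h
  have hone1 : ρ₁ 1 = 0 := by
    have h2 := hm_pow hρ₁ 1 0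
    rwa [pow_zero, Nat.cast_zero, zero_mul] at h2
  have hone2 : ρ₂ 1 = 0 := by
    have h2 := hm_pow hρ₂ 1 0
    rwa [pow_zero, Nat.cast_zero, zero_mul] at h2
  refine ⟨fun τ => if Fre τ then -12 * Phi (SOR.Rl ℓ) n r₁ r₂ (tr2 '' τ) else 0,
    fun τ => Ps0 (SOR.Rl ℓ) n r₁ r₂ (tr2 '' τ), fun τ => Mf (SOR.Rl ℓ) n r₁ r₁ (tr2 '' τ),
    fun τ => Mf (SOR.Rl ℓ) n r₁ r₂ (tr2 '' τ),
    fun U => mu (SOR.Rl ℓ) n r₁ (tr1 '' U) * mu (SOR.Rl ℓ) n r₂ (tr1 '' U), ?_, ?_⟩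
  · constructor
    · intro τ h
      change (if Fre τ then -12 * Phi (SOR.Rl ℓ) n r₁ r₂ (tr2 '' τ) else 0) = 0
      have h1 : Phi (SOR.Rl ℓ) n r₁ r₂ (tr2 '' τ) = 0 := by
        unfold Phi
        rcases h with h | h
        · have h2 : ∀ g ∈ (tr2 '' τ : Set (SOR.L2 n (V₀ × V₀))), r₁ g.2.2 ∈ SOR.Rl ℓ := by
            rintro _ ⟨s, hs, rfl⟩
            exact hz _ (h s hs)
          rw [mu_Ls h0₁ h2, mu_Lt h0₁ h2, al_zero h2]
          ring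
        · have h2 : ∀ g ∈ (tr2 '' τ : Set (SOR.L2 n (V₀ × V₀))), r₂ g.2.2 ∈ SOR.Rl ℓ := by
            rintro _ ⟨s, hs, rfl⟩
            exact hz' _ (h s hs)
          rw [mu_Ls h0₂ h2, mu_Lt h0₂ h2, be_zero h2]
          ring
      rw [h1, mul_zero, ite_self]
    · intro U h
      change mu (SOR.Rl ℓ) n r₁ (tr1 '' U) * mu (SOR.Rl ℓ) n r₂ (tr1 '' U) = 0
      rcases h with h | h
      · have h2 : mu (SOR.Rl ℓ) n r₁ (tr1 '' U) = 0 := by
          refine mu_zero h0₁ ?_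
          rintro _ ⟨u, hu, rfl⟩
          exact hz _ (h u hu)
        rw [h2, zero_mul]
      · have h2 : mu (SOR.Rl ℓ) n r₂ (tr1 '' U) = 0 := by
          refine mu_zero h0₂ ?_
          rintro _ ⟨u, hu, rfl⟩
          exact hz' _ (h u hu)
        rw [h2, mul_zero]
    · intro U κ₁ κ₂ h1 h2
      change mu (SOR.Rl ℓ) n r₁ (tr1 '' U) * mu (SOR.Rl ℓ) n r₂ (tr1 '' U) = _
      have h3 : ∀ p', (Multiplicative.ofAdd (1 : ZMod n), p') ∈
          (tr1 '' U : Set (SOR.L1 n (V₀ × V₀))) ↔ p' = (κ₁, κ₂) := by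
        intro p'
        constructor
        · rintro ⟨u, hu, he⟩
          have h3 := Prod.ext_iff.1 he
          have h4 : ((u.1 : ℕ) : ZMod n) = 1 := Multiplicative.ofAdd.injective h3.1
          have h5 := h2 u hu ((fin_one hn1 _).1 h4)
          have h6 : u.2 = p' := h3.2
          rw [← h6, h5]
        · rintro rfl
          obtain ⟨u, hu, hu1⟩ := h1
          refine ⟨u, hu, ?_⟩
          unfold tr1
          rw [h2 u hu hu1, (fin_one hn1 _).2 hu1]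
      rw [mu, mu, mu_one h3, mu_one h3, hr₁, hr₂]
      push_cast
      field_simp
    · intro τ _ h
      change Ps0 (SOR.Rl ℓ) n r₁ r₂ (tr2 '' τ) = 0 ∧ Mf (SOR.Rl ℓ) n r₁ r₁ (tr2 '' τ) = 0 ∧
        Mf (SOR.Rl ℓ) n r₁ r₂ (tr2 '' τ) = 0
      have h1 : ∀ g ∈ (tr2 '' τ : Set (SOR.L2 n (V₀ × V₀))), r₁ g.2.2 ∈ SOR.Rl ℓ := by
        rintro _ ⟨s, hs, rfl⟩
        exact hz _ (h s hs).1
      have h2 : ∀ g ∈ (tr2 '' τ : Set (SOR.L2 n (V₀ × V₀))), r₂ g.2.2 ∈ SOR.Rl ℓ := by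
        rintro _ ⟨s, hs, rfl⟩
        exact hz' _ (h s hs).2
      refine ⟨?_, mf_zero (mu_Ls h0₁ h1), mf_zero (mu_Ls h0₂ h2)⟩
      unfold Ps0
      split_ifs
      · rw [mu_Ls h0₂ h2, mu_Lt h0₂ h2, al_zero h2, mu_Ls h0₁ h1]
        ring
      · rfl
    · intro τ _ h h'
      change Ps0 (SOR.Rl ℓ) n r₁ r₂ (tr2 '' τ) = 0 ∧ Mf (SOR.Rl ℓ) n r₁ r₁ (tr2 '' τ) = 0 ∧
        Mf (SOR.Rl ℓ) n r₁ r₂ (tr2 '' τ) = 0
      have hs1 : ∀ g ∈ Ls n (tr2 '' τ : Set (SOR.L2 n (V₀ × V₀))),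
          r₁ g.2 ∈ SOR.Rl ℓ ∧ r₂ g.2 ∈ SOR.Rl ℓ := by
        rintro g ⟨s, hs, he⟩
        have h3 := Prod.ext_iff.1 he
        have h4 := Prod.ext_iff.1 h3.2
        have h5 : ((s.2.1 : ℕ) : ZMod n) = 0 := Multiplicative.ofAdd.injective h4.1
        have h6 := h' s hs ((fin_zero _).1 h5)
        have h7 : s.2.2 = g.2 := h4.2
        rw [← h7]
        exact ⟨hz _ h6.1, hz' _ h6.2⟩
      have e1 : mu (SOR.Rl ℓ) n r₁ (Ls n (tr2 '' τ)) = 0 := mu_zero h0₁ fun g hg => (hs1 g hg).1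
      have e2 : mu (SOR.Rl ℓ) n r₂ (Ls n (tr2 '' τ)) = 0 := mu_zero h0₂ fun g hg => (hs1 g hg).2
      refine ⟨?_, mf_zero e1, mf_zero e2⟩
      by_cases hL : Cd (SOR.Rl ℓ) n r₁ (tr2 '' τ : Set (SOR.L2 n (V₀ × V₀)))
      · rw [ps0_bf hL h0₁, e1, e2]
        · ring
        · rintro k l p ⟨s, hs, he⟩
          obtain ⟨s', hs', h0, he'⟩ := h s hs
          rw [e1, mul_zero, sub_zero]
          refine hL l p ⟨s', hs', ?_⟩
          have h3 := Prod.ext_iff.1 he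
          unfold tr2
          rw [h0, he', Nat.cast_zero]
          exact Prod.ext rfl h3.2
      · unfold Ps0
        rw [if_neg hL]
    · intro p₁ q₁ p₂ q₂
      obtain ⟨τ, hτ⟩ : ∃ τ : Set (SO.SS n V₀), τ = {s | s.2.2.1 = p₁ ^ (s.1 : ℕ) *
        p₂ ^ (s.2.1 : ℕ) ∧ s.2.2.2 = q₁ ^ (s.1 : ℕ) * q₂ ^ (s.2.1 : ℕ)} := ⟨_, rfl⟩
      rw [← hτ]
      change Ps0 (SOR.Rl ℓ) n r₁ r₂ (tr2 '' τ) = _ ∧ Mf (SOR.Rl ℓ) n r₁ r₁ (tr2 '' τ) = _ ∧
        Mf (SOR.Rl ℓ) n r₁ r₂ (tr2 '' τ) = _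
      have hs1 : ∀ p', (Multiplicative.ofAdd (1 : ZMod n), p') ∈
          Ls n (tr2 '' τ : Set (SOR.L2 n (V₀ × V₀))) ↔ p' = (p₁, q₁) := by
        intro p'
        constructor
        · rintro ⟨s, hs, he⟩
          have h3 := Prod.ext_iff.1 he
          have h4 := Prod.ext_iff.1 h3.2
          have h5 : ((s.1 : ℕ) : ZMod n) = 1 := Multiplicative.ofAdd.injective h3.1
          have h6 : ((s.2.1 : ℕ) : ZMod n) = 0 := Multiplicative.ofAdd.injective h4.1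
          have h7 : s.2.2 = p' := h4.2
          rw [hτ] at hs
          obtain ⟨h8, h9⟩ := hs
          rw [(fin_one hn1 _).1 h5, (fin_zero _).1 h6, pow_one, pow_zero, mul_one] at h8 h9
          rw [← h7]
          exact Prod.ext h8 h9
        · rintro rfl
          refine ⟨(⟨1, hn1⟩, ⟨0, by omega⟩, p₁, q₁), ?_, ?_⟩
          · rw [hτ]
            constructor
            · show p₁ = p₁ ^ 1 * p₂ ^ 0
              rw [pow_one, pow_zero, mul_one]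
            · show q₁ = q₁ ^ 1 * q₂ ^ 0
              rw [pow_one, pow_zero, mul_one]
          · unfold tr2
            show (Multiplicative.ofAdd ((1 : ℕ) : ZMod n), Multiplicative.ofAdd ((0 : ℕ) : ZMod n),
              (p₁, q₁)) = _
            rw [Nat.cast_one, Nat.cast_zero]
            rfl
      have ht1 : ∀ p', (Multiplicative.ofAdd (1 : ZMod n), p') ∈
          Lt n (tr2 '' τ : Set (SOR.L2 n (V₀ × V₀))) ↔ p' = (p₂, q₂) := by
        intro p'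
        constructor
        · rintro ⟨s, hs, he⟩
          have h3 := Prod.ext_iff.1 he
          have h4 := Prod.ext_iff.1 h3.2
          have h5 : ((s.1 : ℕ) : ZMod n) = 0 := Multiplicative.ofAdd.injective h3.1
          have h6 : ((s.2.1 : ℕ) : ZMod n) = 1 := Multiplicative.ofAdd.injective h4.1
          have h7 : s.2.2 = p' := h4.2
          rw [hτ] at hs
          obtain ⟨h8, h9⟩ := hs
          rw [(fin_zero _).1 h5, (fin_one hn1 _).1 h6, pow_one, pow_zero, one_mul] at h8 h9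
          rw [← h7]
          exact Prod.ext h8 h9
        · rintro rfl
          refine ⟨(⟨0, by omega⟩, ⟨1, hn1⟩, p₂, q₂), ?_, ?_⟩
          · rw [hτ]
            constructor
            · show p₂ = p₁ ^ 0 * p₂ ^ 1
              rw [pow_one, pow_zero, one_mul]
            · show q₂ = q₁ ^ 0 * q₂ ^ 1
              rw [pow_one, pow_zero, one_mul]
          · unfold tr2
            show (Multiplicative.ofAdd ((0 : ℕ) : ZMod n), Multiplicative.ofAdd ((1 : ℕ) : ZMod n),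
              (p₂, q₂)) = _
            rw [Nat.cast_one, Nat.cast_zero]
            rfl
      have m1 : mu (SOR.Rl ℓ) n r₁ (Ls n (tr2 '' τ)) = (x₁ p₁ : ℚ) / ℓ := by
        rw [mu, mu_one hs1, hr₁]
      have m2 : mu (SOR.Rl ℓ) n r₂ (Ls n (tr2 '' τ)) = (x₂ q₁ : ℚ) / ℓ := by
        rw [mu, mu_one hs1, hr₂]
      have m3 : mu (SOR.Rl ℓ) n r₁ (Lt n (tr2 '' τ)) = (x₁ p₂ : ℚ) / ℓ := by
        rw [mu, mu_one ht1, hr₁]
      have m4 : mu (SOR.Rl ℓ) n r₂ (Lt n (tr2 '' τ)) = (x₂ q₂ : ℚ) / ℓ := by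
        rw [mu, mu_one ht1, hr₂]
      have hcg : ∀ (k l : ℤ) (p : V₀ × V₀), (Multiplicative.ofAdd (k : ZMod n),
          Multiplicative.ofAdd (l : ZMod n), p) ∈ (tr2 '' τ : Set (SOR.L2 n (V₀ × V₀))) →
          r₁ p - k * ((x₁ p₁ : ℚ) / ℓ) - l * ((x₁ p₂ : ℚ) / ℓ) ∈ SOR.Rl ℓ := by
        rintro k l p ⟨s, hs, he⟩
        have h3 := Prod.ext_iff.1 he
        have h4 := Prod.ext_iff.1 h3.2
        have h5 : ((s.1 : ℕ) : ZMod n) = k := Multiplicative.ofAdd.injective h3.1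
        have h6 : ((s.2.1 : ℕ) : ZMod n) = l := Multiplicative.ofAdd.injective h4.1
        have h7 : s.2.2 = p := h4.2
        have hk' : ((s.1 : ℕ) : ZMod ℓ) = (k : ZMod ℓ) := by
          have h := cast_dvd (a := ((s.1 : ℕ) : ℤ)) (b := k) hln (by
            rw [Int.cast_natCast]
            exact h5)
          rwa [Int.cast_natCast] at h
        have hl' : ((s.2.1 : ℕ) : ZMod ℓ) = (l : ZMod ℓ) := by
          have h := cast_dvd (a := ((s.2.1 : ℕ) : ℤ)) (b := l) hln (by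
            rw [Int.cast_natCast]
            exact h6)
          rwa [Int.cast_natCast] at h
        rw [hτ] at hs
        rw [← h7, hr₁]
        have e : (x₁ s.2.2.1 : ℚ) / ℓ - k * ((x₁ p₁ : ℚ) / ℓ) - l * ((x₁ p₂ : ℚ) / ℓ) =
            ((x₁ s.2.2.1 - k * x₁ p₁ - l * x₁ p₂ : ℤ) : ℚ) / ℓ := by
          push_cast
          ring
        show (x₁ s.2.2.1 : ℚ) / ℓ - k * ((x₁ p₁ : ℚ) / ℓ) - l * ((x₁ p₂ : ℚ) / ℓ) ∈ SOR.Rl ℓ
        rw [e, div_mem_iff]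
        push_cast
        rw [(hx₁ _).1, (hx₁ _).1, (hx₁ _).1, hs.1, hρ₁, hm_pow hρ₁, hm_pow hρ₁, hk', hl']
        ring
      have hL : Cd (SOR.Rl ℓ) n r₁ (tr2 '' τ : Set (SOR.L2 n (V₀ × V₀))) := by
        intro l p hlp
        have h := hcg 0 l p (by
          rw [Int.cast_zero]
          exact hlp)
        rw [Int.cast_zero, zero_mul, sub_zero] at h
        rw [show SOR.H32.mu (SOR.Rl ℓ) n r₁ (Lt n (tr2 '' τ)) = (x₁ p₂ : ℚ) / ℓ from m3]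
        exact h
      rw [ps0_bf hL h0₁ (by rw [m1, m3]; exact hcg), mf_pos hL, mf_pos hL, m1, m2, m3, m4]
      refine ⟨?_, rfl, rfl⟩
      push_cast
      field_simp
    · intro p₁ q₁
      obtain ⟨τ, hτ⟩ : ∃ τ : Set (SO.SS n V₀), τ = {s | ℓ ∣ (s.2.1 : ℕ) ∧
        s.2.2.1 = p₁ ^ (s.1 : ℕ) ∧ s.2.2.2 = q₁ ^ (s.1 : ℕ)} := ⟨_, rfl⟩
      rw [← hτ]
      change Ps0 (SOR.Rl ℓ) n r₁ r₂ (tr2 '' τ) = _ ∧ Mf (SOR.Rl ℓ) n r₁ r₁ (tr2 '' τ) = _ ∧
        Mf (SOR.Rl ℓ) n r₁ r₂ (tr2 '' τ) = _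
      have hs1 : ∀ p', (Multiplicative.ofAdd (1 : ZMod n), p') ∈
          Ls n (tr2 '' τ : Set (SOR.L2 n (V₀ × V₀))) ↔ p' = (p₁, q₁) := by
        intro p'
        constructor
        · rintro ⟨s, hs, he⟩
          have h3 := Prod.ext_iff.1 he
          have h4 := Prod.ext_iff.1 h3.2
          have h5 : ((s.1 : ℕ) : ZMod n) = 1 := Multiplicative.ofAdd.injective h3.1
          have h7 : s.2.2 = p' := h4.2
          rw [hτ] at hs
          obtain ⟨_, h8, h9⟩ := hs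
          rw [(fin_one hn1 _).1 h5, pow_one] at h8 h9
          rw [← h7]
          exact Prod.ext h8 h9
        · rintro rfl
          refine ⟨(⟨1, hn1⟩, ⟨0, by omega⟩, p₁, q₁), ?_, ?_⟩
          · rw [hτ]
            refine ⟨dvd_zero _, ?_, ?_⟩
            · show p₁ = p₁ ^ 1
              rw [pow_one]
            · show q₁ = q₁ ^ 1
              rw [pow_one]
          · unfold tr2
            show (Multiplicative.ofAdd ((1 : ℕ) : ZMod n), Multiplicative.ofAdd ((0 : ℕ) : ZMod n),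
              (p₁, q₁)) = _
            rw [Nat.cast_one, Nat.cast_zero]
            rfl
      have ht1 : ∀ g ∈ Lt n (tr2 '' τ : Set (SOR.L2 n (V₀ × V₀))), g.2 = 1 := by
        rintro g ⟨s, hs, he⟩
        have h3 := Prod.ext_iff.1 he
        have h4 := Prod.ext_iff.1 h3.2
        have h5 : ((s.1 : ℕ) : ZMod n) = 0 := Multiplicative.ofAdd.injective h3.1
        have h7 : s.2.2 = g.2 := h4.2
        rw [hτ] at hs
        obtain ⟨_, h8, h9⟩ := hs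
        rw [(fin_zero _).1 h5, pow_zero] at h8 h9
        rw [← h7]
        exact Prod.ext h8 h9
      have m1 : mu (SOR.Rl ℓ) n r₁ (Ls n (tr2 '' τ)) = (x₁ p₁ : ℚ) / ℓ := by
        rw [mu, mu_one hs1, hr₁]
      have m2 : mu (SOR.Rl ℓ) n r₂ (Ls n (tr2 '' τ)) = (x₂ q₁ : ℚ) / ℓ := by
        rw [mu, mu_one hs1, hr₂]
      have m3 : mu (SOR.Rl ℓ) n r₁ (Lt n (tr2 '' τ)) = 0 := mu_zero h0₁ fun g hg => by
        rw [ht1 g hg]
        exact hz 1 hone1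
      have m4 : mu (SOR.Rl ℓ) n r₂ (Lt n (tr2 '' τ)) = 0 := mu_zero h0₂ fun g hg => by
        rw [ht1 g hg]
        exact hz' 1 hone2
      have hcg : ∀ (k l : ℤ) (p : V₀ × V₀), (Multiplicative.ofAdd (k : ZMod n),
          Multiplicative.ofAdd (l : ZMod n), p) ∈ (tr2 '' τ : Set (SOR.L2 n (V₀ × V₀))) →
          r₁ p - k * ((x₁ p₁ : ℚ) / ℓ) - l * 0 ∈ SOR.Rl ℓ := by
        rintro k l p ⟨s, hs, he⟩
        have h3 := Prod.ext_iff.1 he
        have h4 := Prod.ext_iff.1 h3.2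
        have h5 : ((s.1 : ℕ) : ZMod n) = k := Multiplicative.ofAdd.injective h3.1
        have h7 : s.2.2 = p := h4.2
        have hk' : ((s.1 : ℕ) : ZMod ℓ) = (k : ZMod ℓ) := by
          have h := cast_dvd (a := ((s.1 : ℕ) : ℤ)) (b := k) hln (by
            rw [Int.cast_natCast]
            exact h5)
          rwa [Int.cast_natCast] at h
        rw [hτ] at hs
        rw [← h7, hr₁]
        have e : (x₁ s.2.2.1 : ℚ) / ℓ - k * ((x₁ p₁ : ℚ) / ℓ) - l * 0 =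
            ((x₁ s.2.2.1 - k * x₁ p₁ : ℤ) : ℚ) / ℓ := by
          push_cast
          ring
        show (x₁ s.2.2.1 : ℚ) / ℓ - k * ((x₁ p₁ : ℚ) / ℓ) - l * 0 ∈ SOR.Rl ℓ
        rw [e, div_mem_iff]
        push_cast
        rw [(hx₁ _).1, (hx₁ _).1, hs.2.1, hm_pow hρ₁, hk']
        ring
      have hL : Cd (SOR.Rl ℓ) n r₁ (tr2 '' τ : Set (SOR.L2 n (V₀ × V₀))) := by
        intro l p hlp
        rw [show SOR.H32.mu (SOR.Rl ℓ) n r₁ (Lt n (tr2 '' τ)) = 0 from m3, mul_zero, sub_zero]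
        have h := ht1 _ hlp
        have h' : p = 1 := h
        rw [h']
        exact hz 1 hone1
      rw [ps0_bf hL h0₁ (by rw [m1, m3]; exact hcg), mf_pos hL, mf_pos hL, m1, m2, m3, m4]
      refine ⟨?_, rfl, rfl⟩
      ring
    · intro p q i₀ hi
      change (ℓ : ℚ) ^ 2 * Ps0 (SOR.Rl ℓ) n r₁ r₂ (tr2 '' (tN n ℓ p q i₀)) ∈ SOR.Rl ℓ ∧
        Mf (SOR.Rl ℓ) n r₁ r₁ (tr2 '' (tN n ℓ p q i₀)) = 0 ∧
        Mf (SOR.Rl ℓ) n r₁ r₂ (tr2 '' (tN n ℓ p q i₀)) = 0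
      have hsl : ∀ g ∈ (tr2 '' (tN n ℓ p q i₀) : Set (SOR.L2 n (V₀ × V₀))),
          g.1 = 1 ∨ g.2.1 = 1 → g.2.2 = 1 := by
        rintro _ ⟨s, hs, rfl⟩ h
        have h1 : s.2.2.1 = 1 ∧ s.2.2.2 = 1 := by
          refine tN_one hexp hi hs ?_
          rcases h with h | h
          · exact Or.inl ((fin_zero _).1 (Multiplicative.ofAdd.injective h))
          · exact Or.inr ((fin_zero _).1 (Multiplicative.ofAdd.injective h))
        exact Prod.ext h1.1 h1.2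
      have hls : ∀ g ∈ Ls n (tr2 '' (tN n ℓ p q i₀) : Set (SOR.L2 n (V₀ × V₀))), g.2 = 1 :=
        fun g hg => hsl (g.1, 1, g.2) hg (Or.inr rfl)
      have hlt : ∀ g ∈ Lt n (tr2 '' (tN n ℓ p q i₀) : Set (SOR.L2 n (V₀ × V₀))), g.2 = 1 :=
        fun g hg => hsl (1, g.1, g.2) hg (Or.inl rfl)
      have hmu : ∀ (U : Set (SOR.L1 n (V₀ × V₀))), (∀ g ∈ U, g.2 = 1) →
          mu (SOR.Rl ℓ) n r₁ U = 0 ∧ mu (SOR.Rl ℓ) n r₂ U = 0 := fun U h =>
        ⟨mu_zero h0₁ fun g hg => by rw [h g hg]; exact hz 1 hone1,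
          mu_zero h0₂ fun g hg => by rw [h g hg]; exact hz' 1 hone2⟩
      obtain ⟨m1, m2⟩ := hmu _ hls
      obtain ⟨m3, m4⟩ := hmu _ hlt
      refine ⟨?_, mf_zero m1, mf_zero m2⟩
      have hL : Cd (SOR.Rl ℓ) n r₁ (tr2 '' (tN n ℓ p q i₀) : Set (SOR.L2 n (V₀ × V₀))) := by
        intro l p' hlp
        rw [show SOR.H32.mu (SOR.Rl ℓ) n r₁ (Lt n (tr2 '' (tN n ℓ p q i₀))) = 0 from m3, mul_zero,
          sub_zero]
        have h' : p' = 1 := hlt _ hlp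
        rw [h']
        exact hz 1 hone1
      rw [ps0_pos hL, m1, m2, m3, m4]
      have hcg : ∀ (k l : ℤ) (v : V₀ × V₀), (Multiplicative.ofAdd (k : ZMod n),
          Multiplicative.ofAdd (l : ZMod n), v) ∈ (tr2 '' (tN n ℓ p q i₀) : Set _) →
          r₂ v - k * ((x₂ q : ℚ) / (ℓ * i₀)) ∈ SOR.Rl ℓ ∧
            r₁ v - l * ((x₁ p : ℚ) / ℓ) ∈ SOR.Rl ℓ := by
        rintro k l v ⟨s, hs, he⟩
        have h3 := Prod.ext_iff.1 he
        have h4 := Prod.ext_iff.1 h3.2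
        have h5 : s.2.2 = v := h4.2
        rw [← h5, hr₁, hr₂]
        exact tN_cong hln hρ₁ hρ₂ hx₁ hx₂ hi hs (Multiplicative.ofAdd.injective h3.1)
          (Multiplicative.ofAdd.injective h4.1)
      have ha := al_spec (R := SOR.Rl ℓ) (n := n) (r := r₂) (ν := 0)
        (Λ := (tr2 '' (tN n ℓ p q i₀) : Set (SOR.L2 n (V₀ × V₀)))) (fun _ => rfl)
        ⟨(x₂ q : ℚ) / (ℓ * i₀), fun k l v hv => by
          rw [mul_zero, sub_zero]
          exact (hcg k l v hv).1⟩ _ _ _ (tN_pt hln hn1 p q i₀)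
      have hb := bf_spec (R := SOR.Rl ℓ) (n := n) (r := r₁) (μ := 0) (ν := 0)
        (Λ := (tr2 '' (tN n ℓ p q i₀) : Set (SOR.L2 n (V₀ × V₀)))) (fun _ => rfl)
        ⟨(x₁ p : ℚ) / ℓ, fun k l v hv => by
          rw [mul_zero, sub_zero]
          exact (hcg k l v hv).2⟩ _ _ _ (tN_pt hln hn1 p q i₀)
      obtain ⟨α, hα⟩ : ∃ α, α = al (SOR.Rl ℓ) n r₂ 0
        (tr2 '' (tN n ℓ p q i₀) : Set (SOR.L2 n (V₀ × V₀))) := ⟨_, rfl⟩
      obtain ⟨β, hβ⟩ : ∃ β, β = bf (SOR.Rl ℓ) n r₁ 0 0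
        (tr2 '' (tN n ℓ p q i₀) : Set (SOR.L2 n (V₀ × V₀))) := ⟨_, rfl⟩
      rw [← hα] at ha ⊢
      rw [← hβ] at hb ⊢
      rw [mul_zero, sub_zero, hr₂] at ha
      rw [mul_zero, sub_zero, hr₁] at hb
      have ha' : (x₂ q : ℚ) / ℓ - ((i₀ : ℤ) : ℚ) * α ∈ SOR.Rl ℓ := ha
      have hb' : (x₁ p : ℚ) / ℓ - ((1 : ℤ) : ℚ) * β ∈ SOR.Rl ℓ := hb
      rw [Int.cast_natCast] at ha'
      rw [Int.cast_one, one_mul] at hb'
      have hi0 : (i₀ : ℚ) ≠ 0 := by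
        intro h
        apply hi
        have h1 : i₀ = 0 := by exact_mod_cast h
        rw [h1]
        exact dvd_zero _
      have hℓ : (ℓ : ℚ) ∈ SOR.Rl ℓ := by
        have h := int_mem (ℓ := ℓ) (ℓ : ℤ)
        rwa [Int.cast_natCast] at h
      have h1 : (ℓ : ℚ) * α ∈ SOR.Rl ℓ := by
        have e : (ℓ : ℚ) * α = (x₂ q - ℓ * ((x₂ q : ℚ) / ℓ - i₀ * α)) * (i₀ : ℚ)⁻¹ := by
          field_simp
          ring
        rw [e]
        exact (SOR.Rl ℓ).mul_mem ((SOR.Rl ℓ).sub_mem (int_mem _) ((SOR.Rl ℓ).mul_mem hℓ ha'))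
          (inv_mem_Rl hi)
      have h2 : (ℓ : ℚ) * β ∈ SOR.Rl ℓ := by
        have e : (ℓ : ℚ) * β = x₁ p - ℓ * ((x₁ p : ℚ) / ℓ - β) := by
          field_simp
          ring
        rw [e]
        exact (SOR.Rl ℓ).sub_mem (int_mem _) ((SOR.Rl ℓ).mul_mem hℓ hb')
      have e : (ℓ : ℚ) ^ 2 * (-((0 - α) * (β - 0)) - 0 * 0 - 0 * 0) = ℓ * α * (ℓ * β) := by ring
      rw [e]
      exact (SOR.Rl ℓ).mul_mem h1 h2
  · intro c d G _ _ m ι hι hPE P Q hc hd s t hs ht hPs hQt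
    obtain ⟨D, _, _, _, _, hTs, ha, ha3, hT, hV⟩ := hBrx G (ι c * s) (ι d * t)
    have hn0 : 0 < n := by omega
    obtain ⟨M, hM1, hM, hMn⟩ := exists_M hPE
    -- centralisers
    have hcomm : ∀ v w : V₀, ι v * ι w = ι w * ι v := fun v w => by
      rw [← map_mul, ← map_mul, mul_comm]
    have hP1 : ∀ p ∈ P, ι p ∈ Subgroup.centralizer ({ι c * s} : Set G) := by
      intro p hp
      rw [Subgroup.mem_centralizer_iff]
      intro h hh
      rw [Set.mem_singleton_iff] at hh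
      rw [hh, mul_assoc, ← hPs p hp, ← mul_assoc, hcomm c p, mul_assoc]
    have hQ1 : ∀ p ∈ Q, ι p ∈ Subgroup.centralizer ({ι d * t} : Set G) := by
      intro p hp
      rw [Subgroup.mem_centralizer_iff]
      intro h hh
      rw [Set.mem_singleton_iff] at hh
      rw [hh, mul_assoc, ← hQt p hp, ← mul_assoc, hcomm d p, mul_assoc]
    have hs1 : s⁻¹ ∈ Subgroup.centralizer ({ι c * s} : Set G) := by
      refine Subgroup.inv_mem _ ?_
      rw [Subgroup.mem_centralizer_iff]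
      intro h hh
      rw [Set.mem_singleton_iff] at hh
      rw [hh, ← mul_assoc, ← hPs c hc]
    have ht1 : t⁻¹ ∈ Subgroup.centralizer ({ι d * t} : Set G) := by
      refine Subgroup.inv_mem _ ?_
      rw [Subgroup.mem_centralizer_iff]
      intro h hh
      rw [Set.mem_singleton_iff] at hh
      rw [hh, ← mul_assoc, ← hQt d hd]
    obtain ⟨q', hq', hqa, hqb, hqA, hqB, hqT⟩ :=
      hV (Subgroup.centralizer ({ι c * s} : Set G)) (Subgroup.centralizer ({ι d * t} : Set G))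
        (fun v hv => (Subgroup.mem_centralizer_iff.1 hv _ rfl).symm)
        (fun v hv => (Subgroup.mem_centralizer_iff.1 hv _ rfl).symm)
    obtain ⟨θ, hθ⟩ : ∃ θ : P.prod Q →* (Subgroup.centralizer ({ι c * s} : Set G)) ×
        (Subgroup.centralizer ({ι d * t} : Set G)),
        ∀ p, θ p = (⟨ι p.1.1, hP1 _ p.2.1⟩, ⟨ι p.1.2, hQ1 _ p.2.2⟩) :=
      ⟨{ toFun := fun p => (⟨ι p.1.1, hP1 _ p.2.1⟩, ⟨ι p.1.2, hQ1 _ p.2.2⟩)
         map_one' := by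
          refine Prod.ext (Subtype.ext ?_) (Subtype.ext ?_)
          · exact map_one ι
          · exact map_one ι
         map_mul' := fun a b => by
          refine Prod.ext (Subtype.ext ?_) (Subtype.ext ?_)
          · exact map_mul ι _ _
          · exact map_mul ι _ _ }, fun p => rfl⟩
    obtain ⟨σ, hσ⟩ : ∃ σ : Equiv.Perm (SOR.Tr G (ι c * s) (ι d * t)),
      σ = q' (⟨s⁻¹, hs1⟩, ⟨t⁻¹, ht1⟩) := ⟨_, rfl⟩
    have hq : ∀ (p : P.prod Q) z, ((q'.comp θ) p z).1 = (ι p.1.1 * z.1.1 * (ι p.1.1)⁻¹,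
        ι p.1.1 * z.1.2.1 * (ι p.1.1)⁻¹, ι p.1.1 * z.1.2.2 * (ι p.1.2)⁻¹) := by
      intro p z
      rw [MonoidHom.comp_apply, hq', hθ]
    have hmem : ∀ g : Equiv.Perm (SOR.Tr G (ι c * s) (ι d * t)),
        (∀ p z, g (q' p z) = q' p (g z)) →
        g ∈ Subgroup.centralizer (Set.range q' : Set (Equiv.Perm _)) := by
      intro g hg
      rw [Subgroup.mem_centralizer_iff]
      rintro _ ⟨p, rfl⟩
      refine Equiv.ext fun z => ?_
      exact (hg p z).symm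
    obtain ⟨D', hD'⟩ : ∃ D' : SOR.Bd (Subgroup.centralizer (Set.range q' : Set (Equiv.Perm _))),
        D' = rst D _ (hmem _ hqa) (hmem _ hqb) (hmem _ hqA) (hmem _ hqB) (hmem _ hqT) :=
      ⟨_, rfl⟩
    obtain ⟨i, hi⟩ : ∃ i : Subgroup.centralizer (Set.range q' : Set (Equiv.Perm _)) →*
        Equiv.Perm (SOR.Tr G (ι c * s) (ι d * t)), i = Subgroup.subtype _ := ⟨_, rfl⟩
    have hia : i D'.a = D.a := by rw [hi, hD']; rfl
    have hia3 : i D'.a3 = D.a3 := by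
      rw [hi, hD']
      rfl
    have hiT : i D'.T = D.T := by
      rw [hi, hD']
      unfold SOR.Bd.T
      rw [map_pow, map_mul]
      rfl
    have hiTs : i D'.Ts = D.Ts := by rw [hi, hD']; rfl
    have hicomm : ∀ g v x, i g (q' v x) = q' v (i g x) := by
      intro g v x
      have h1 := Subgroup.mem_centralizer_iff.1 g.2 (q' v) ⟨v, rfl⟩
      have h2 := Equiv.ext_iff.1 h1 x
      rw [hi]
      exact h2.symm
    have hXa : SOR.Xa ℓ D' (P.prod Q) ⟨(c⁻¹, d⁻¹), ⟨P.inv_mem hc, Q.inv_mem hd⟩⟩ i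
        (q'.comp θ) σ := by
      refine ⟨?_, ?_, ?_, ?_, ?_⟩
      · intro g p x
        exact hicomm g (θ p) x
      · intro g x
        rw [hσ]
        exact hicomm g _ x
      · intro p x
        rw [hσ, MonoidHom.comp_apply, ← Equiv.Perm.mul_apply, ← Equiv.Perm.mul_apply, ← map_mul,
          ← map_mul]
        congr 2
        rw [hθ]
        have e1 : Commute (ι p.1.1) s⁻¹ := Commute.inv_right (hPs _ p.2.1)
        have e2 : Commute (ι p.1.2) t⁻¹ := Commute.inv_right (hQt _ p.2.2)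
        refine Prod.ext (Subtype.ext ?_) (Subtype.ext ?_)
        · exact e1
        · exact e2
      · have h1 : orderOf σ ∣ orderOf s * orderOf t := by
          rw [orderOf_dvd_iff_pow_eq_one, hσ, ← map_pow]
          have h2 : ((⟨s⁻¹, hs1⟩, ⟨t⁻¹, ht1⟩) : (Subgroup.centralizer ({ι c * s} : Set G)) ×
              (Subgroup.centralizer ({ι d * t} : Set G))) ^ (orderOf s * orderOf t) = 1 := by
            refine Prod.ext (Subtype.ext ?_) (Subtype.ext ?_)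
            · change (s⁻¹) ^ (orderOf s * orderOf t) = 1
              rw [inv_pow, pow_mul, pow_orderOf_eq_one, one_pow, inv_one]
            · change (t⁻¹) ^ (orderOf s * orderOf t) = 1
              rw [inv_pow, mul_comm, pow_mul, pow_orderOf_eq_one, one_pow, inv_one]
          rw [h2, map_one]
        exact Nat.Coprime.coprime_dvd_left h1 (Nat.Coprime.mul_left hs ht)
      · rw [hiTs, hσ]
        refine Equiv.ext fun z => Subtype.ext ?_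
        rw [hTs, Equiv.Perm.mul_apply, hq, hq']
        have e1 : ι c * s = s * ι c := hPs c hc
        have e2 : ι d * t = t * ι d := hQt d hd
        have e3 : ι c⁻¹ = (ι c)⁻¹ := map_inv ι c
        have e4 : ι d⁻¹ = (ι d)⁻¹ := map_inv ι d
        simp only [e1, e2, e3, e4]
        refine Prod.ext ?_ (Prod.ext ?_ ?_)
        · simp only
          group
        · simp only
          group
        · simp only
          group
    have hone : ∀ (x : G) (k : ℤ), x ^ ((M : ℤ) * ((n : ℤ) * k)) = 1 := by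
      intro x k
      rw [zpow_mul, zpow_natCast, hM, zpow_mul, zpow_natCast, hMn, one_zpow]
    have h1a : i ((D'.a ^ M) ^ n) = 1 := by
      rw [map_pow, map_pow, hia]
      refine Equiv.ext fun z => Subtype.ext ?_
      have e : (D.a ^ M) ^ n = D.a ^ ((M : ℤ) * ((n : ℤ) * 1)) := by
        rw [mul_one, zpow_mul, zpow_natCast, zpow_natCast]
      rw [e, ha, hone, mul_one]
      rfl
    have h1a3 : i ((D'.a3 ^ M) ^ n) = 1 := by
      rw [map_pow, map_pow, hia3]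
      refine Equiv.ext fun z => Subtype.ext ?_
      have e : (D.a3 ^ M) ^ n = D.a3 ^ ((M : ℤ) * ((n : ℤ) * 1)) := by
        rw [mul_one, zpow_mul, zpow_natCast, zpow_natCast]
      rw [e, ha3, hone, one_mul, one_mul]
      rfl
    have h1T : i ((D'.T ^ M) ^ n) = 1 := by
      rw [map_pow, map_pow, hiT]
      refine Equiv.ext fun z => Subtype.ext ?_
      have e : (D.T ^ M) ^ n = D.T ^ ((M : ℤ) * ((n : ℤ) * 1)) := by
        rw [mul_one, zpow_mul, zpow_natCast, zpow_natCast]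
      have e2 : -((M : ℤ) * ((n : ℤ) * 1)) = (M : ℤ) * ((n : ℤ) * (-1)) := by ring
      rw [e, hT, e2, hone, hone, one_mul, one_mul, mul_one, mul_one]
      rfl
    have hfin : Finite (SOR.Tr G (ι c * s) (ι d * t)) :=
      Finite.of_injective (fun z => z.1) Subtype.val_injective
    have : Fintype (SOR.Tr G (ι c * s) (ι d * t)) := Fintype.ofFinite _
    have hfin' : Finite (XX (ι c * s) (ι d * t)) :=
      Finite.of_equiv _ (eX (ι c * s) (ι d * t)).symm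
    have : Fintype (XX (ι c * s) (ι d * t)) := Fintype.ofFinite _
    have hR := hrel (c⁻¹, d⁻¹) (Subgroup.centralizer (Set.range q' : Set (Equiv.Perm _)))
      (SOR.Tr G (ι c * s) (ι d * t)) D' (P.prod Q) ⟨(c⁻¹, d⁻¹), ⟨P.inv_mem hc, Q.inv_mem hd⟩⟩ rfl i
      (q'.comp θ) σ hXa M hM1 h1a h1a3 h1T
    refine ⟨_, hR, ?_⟩
    have hcard : (Nat.card (P.prod Q) : ℚ) = Nat.card P * Nat.card Q := by
      rw [Nat.card_congr (Subgroup.prodEquiv P Q).toEquiv, Nat.card_prod]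
      push_cast
      ring
    have hcard0 : (Nat.card (P.prod Q) : ℚ) ≠ 0 := by
      exact_mod_cast Nat.card_pos.ne'
    rw [← hcard, mul_div_cancel₀ _ hcard0, finsum_eq_sum_of_fintype, Finset.sum_filter]
    refine Fintype.sum_equiv (eX (ι c * s) (ι d * t)) _ _ ?_
    intro w
    obtain ⟨z, hz⟩ : ∃ z, z = eX (ι c * s) (ι d * t) w := ⟨_, rfl⟩
    have hzw : z.1 = w.1 := by rw [hz]; rfl
    rw [← hz, ← hzw]
    have i13 := img13 (P := P) (Q := Q) hn0 hq hia hia3 ha ha3 hM hMn z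
    have i12 := img12 (P := P) (Q := Q) hn0 hq hia hiT ha hT hM hMn z
    have iT := imgT (P := P) (Q := Q) hn0 hq hia hiT ha hT hM hMn z
    have f13 := free13 (P := P) (Q := Q) (m := m) hn0 hq z
    have f12 := free12 (P := P) (Q := Q) (m := m) hn0 hq z
    change (if Fre (t13 n m ι P Q (ι c * s) z.1.1 z.1.2.1 z.1.2.2) then
        -12 * Phi (SOR.Rl ℓ) n r₁ r₂ (tr2 '' (t13 n m ι P Q (ι c * s) z.1.1 z.1.2.1 z.1.2.2))
        else 0) +
      (if Fre (t12 n m ι P Q z.1.1 z.1.2.1 z.1.2.2) then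
        (x₁ c⁻¹ : ℚ) / ℓ * ((x₂ d⁻¹ : ℚ) / ℓ) -
          mu (SOR.Rl ℓ) n r₁ (tr1 '' (tT (t12 n m ι P Q z.1.1 z.1.2.1 z.1.2.2))) *
          mu (SOR.Rl ℓ) n r₂ (tr1 '' (tT (t12 n m ι P Q z.1.1 z.1.2.1 z.1.2.2))) -
          12 * (Ps0 (SOR.Rl ℓ) n r₁ r₂ (tr2 '' (t12 n m ι P Q z.1.1 z.1.2.1 z.1.2.2)) +
            (x₁ c⁻¹ : ℚ) / ℓ *
              Mf (SOR.Rl ℓ) n r₁ r₂ (tr2 '' (t12 n m ι P Q z.1.1 z.1.2.1 z.1.2.2)) +
            (x₂ d⁻¹ : ℚ) / ℓ *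
              Mf (SOR.Rl ℓ) n r₁ r₁ (tr2 '' (t12 n m ι P Q z.1.1 z.1.2.1 z.1.2.2))) else 0) = _
    rw [i13, i12, iT]
    have e1 : r₁ (c⁻¹, d⁻¹) = (x₁ c⁻¹ : ℚ) / ℓ := by rw [hr₁]
    have e2 : r₂ (c⁻¹, d⁻¹) = (x₂ d⁻¹ : ℚ) / ℓ := by rw [hr₂]
    by_cases hg : z ∈ SOR.Gd (q'.comp θ)
    · rw [if_pos (f13.2 hg), if_pos (f12.2 hg), if_pos hg, psi_eq, e1, e2]
      ring
    · rw [if_neg (fun h => hg (f13.1 h)), if_neg (fun h => hg (f12.1 h)), if_neg hg, add_zero]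


end Pool.Agent.PP.SE.H66
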