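import Pool.Agent.ASE.StmtsX
import Pool.Agent.Helper66_ASE.RTE
import Pool.Agent.Helper66_SOR.Asm

/-!
# Squad ASE, block R: row RTE

The relation with universal functions for all labels, without hypotheses.
-/

set_option autoImplicit false

namespace Pool.Agent.PP.SE.H66

/-- RTE from the three statements of squad SOR -/
theorem rteS (hlex : SOR.LexStmt) (hxsg : SOR.XsgStmt) (hBrx : SOR.BrxStmt) : RteStmt :=
  rte hlex hxsg hBrx

/-- RTE without hypotheses -/
theorem rte_ : RteStmt := rteS SOR.lex_ SOR.xsg_ SOR.brx_

end Pool.Agent.PP.SE.H66
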