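import Pool.Agent.ASE.Stmts2
import Pool.Agent.ASE.Stmts3
import Pool.Agent.Helper33_ASO.NSV

/-!
# Squad ASE, row VXM: the `g`-part of the characters of `b W`
-/

set_option autoImplicit false
set_option linter.unusedSectionVars false

open scoped BigOperators

noncomputable section

namespace Pool.Agent.PP.SE.H66

open Pool.Agent.Helper51_AWC Pool.Agent.Helper79_WRA Pool.Agent.PP Pool.Agent.PP.KF
open Pool.Agent.PP.K9 Pool.Agent.PP.K9.H97 Pool.Agent.PP.H75 Pool.Agent.PP.T3 Pool.Agent.PP.SO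
open Pool.Agent.PP.SD

attribute [local instance] Ideal.Quotient.field

/-- the multiplicity of an irreducible character in the restriction is a natural number -/
theorem mult_nat {C H : Type} [Group C] [Fintype C] [Group H] (j : C →* H) {χ : H → ℂ}
    (hχ : χ ∈ Irr H) {θ : C → ℂ} (hθ : θ ∈ Irr C) :
    ∃ m : ℕ, (Nat.card C : ℂ)⁻¹ * ∑ c : C, χ (j c) * θ c⁻¹ = m := by
  obtain ⟨n, ρ, hρ, rfl⟩ := hχ
  obtain ⟨n', σ, hσ, rfl⟩ := hθ
  have hc : (Nat.card C : ℂ) ≠ 0 := by exact_mod_cast Nat.card_pos.ne'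
  have := invertibleOfNonzero hc
  obtain ⟨τ, hτ⟩ : ∃ τ : Representation ℂ C (Fin n → ℂ), τ = ρ.comp j := ⟨_, rfl⟩
  have h := Representation.card_inv_mul_sum_char_mul_char_eq_finrank σ τ
  refine ⟨_, Eq.trans ?_ h⟩
  rw [hτ]
  rfl

section top

variable {ℓ : ℕ} [Fact ℓ.Prime] {V₀ G : Type} [CommGroup V₀] [Group G] {M : Ideal (integralClosure ℤ ℂ)} [M.IsMaximal]
  [Finite V₀] [Finite G] {E₀ : Subgroup (MulAut V₀)} (B : Bk (FF M) V₀ G)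

/-- the function `fc` of the whole group -/
theorem fc_top (x : V₀) (g : G) : fc B ⊤ x g = bh B ⊤ ((B.i x)⁻¹ * g) := by
  classical
  have := Fintype.ofFinite (B.C ⊤)
  have h1 : (⊤ : Subgroup V₀) ⊔ Subgroup.zpowers x = ⊤ := top_sup_eq _
  unfold fc
  rw [h1, finsum_eq_sum_of_fintype]
  have h2 : ∀ z : B.C ⊤, bh B ⊤ ((B.i x)⁻¹ * ((z : G)⁻¹ * g * z)) =
      bh B ⊤ ((B.i x)⁻¹ * g) := by
    intro z
    have h3 : B.i x * z = z * B.i x := (H33.mem_C B).1 z.2 x (Subgroup.mem_top x)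
    have h4 : (B.i x)⁻¹ * (z : G)⁻¹ = (z : G)⁻¹ * (B.i x)⁻¹ := by
      rw [← mul_inv_rev, ← mul_inv_rev, h3]
    have e1 : (B.i x)⁻¹ * ((z : G)⁻¹ * g * z) = (z : G)⁻¹ * ((B.i x)⁻¹ * g) * z := by
      rw [← mul_assoc, ← mul_assoc, h4]
      group
    rw [e1]
    by_cases hg : (B.i x)⁻¹ * g ∈ B.C ⊤
    · have h5 := H33.bh_W B ⊤ ⟨(B.i x)⁻¹ * g, hg⟩
      have h6 := H33.bh_W B ⊤ (z⁻¹ * ⟨(B.i x)⁻¹ * g, hg⟩ * z)
      have h7 : ((z⁻¹ * ⟨(B.i x)⁻¹ * g, hg⟩ * z : B.C ⊤) : G) =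
        (z : G)⁻¹ * ((B.i x)⁻¹ * g) * z := rfl
      rw [← h7, h6]
      change _ = bh B ⊤ ((⟨(B.i x)⁻¹ * g, hg⟩ : B.C ⊤) : G)
      rw [h5]
      have h8 : z⁻¹ * ⟨(B.i x)⁻¹ * g, hg⟩ * z = z⁻¹ * ⟨(B.i x)⁻¹ * g, hg⟩ * (z⁻¹)⁻¹ := by
        rw [inv_inv]
      rw [h8, K9.H25.eh_cl]
    · rw [H33.bh_not B ⊤ hg, H33.bh_not B ⊤]
      intro h
      apply hg
      have h5 : (B.i x)⁻¹ * g = z * ((z : G)⁻¹ * ((B.i x)⁻¹ * g) * z) * (z : G)⁻¹ := by group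
      rw [h5]
      exact (B.C ⊤).mul_mem ((B.C ⊤).mul_mem z.2 h) ((B.C ⊤).inv_mem z.2)
  rw [Finset.sum_congr rfl fun z _ => h2 z, Finset.sum_const, Finset.card_univ, nsmul_eq_mul,
    ← mul_assoc, Nat.card_eq_fintype_card, inv_mul_cancel₀, one_mul]
  exact_mod_cast Fintype.card_ne_zero

/-- `vx` in terms of `fc` -/
theorem vx_eq (χ : G → ℂ) (x : V₀) :
    vx B χ x = (∑ᶠ g, fc B ⊤ x g * χ g) / B.D ⊤ := by
  classical
  have := Fintype.ofFinite G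
  unfold vx
  congr 1
  rw [finsum_eq_sum_of_fintype, finsum_eq_sum_of_fintype, ← Equiv.sum_comp (Equiv.mulLeft (B.i x))
    (fun g => fc B ⊤ x g * χ g)]
  refine Finset.sum_congr rfl fun s _ => ?_
  show bh B ⊤ s * χ (B.i x * s) = fc B ⊤ x (B.i x * s) * χ (B.i x * s)
  rw [fc_top, inv_mul_cancel_left]

/-- sums over the centraliser -/
theorem sum_C (W : Subgroup V₀) (f : G → ℂ) (hf : ∀ g, g ∉ B.C W → f g = 0) [Fintype (B.C W)] :
    ∑ᶠ g, f g = ∑ t : B.C W, f t := by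
  rw [H75.sum_sub (B.C W) f hf, finsum_eq_sum_of_fintype]

theorem mp_top (τ : MulAut V₀) : mp τ (⊤ : Subgroup V₀) = ⊤ := by
  unfold mp
  exact Subgroup.map_top_of_surjective _ (MulEquiv.surjective _)

end top

/-- VXM -/
theorem vxm (hGea : GeaStmt) (hCzb : CzbStmt) (hAcb : AcbStmt) (hNsd : NsdStmt) (hRda : RdaStmt)
    (hRwd : RwdStmt) (hHomr : HOmrStmt) : VxmStmt := by
  intro ℓ _ M _ hM hl2 V₀ G _ _ _ _ E₀ hq B hB W hW χ hχ
  classical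
  have := Fintype.ofFinite G
  have := Fintype.ofFinite V₀
  have := Fintype.ofFinite (B.C W)
  have := Fintype.ofFinite (B.C ⊤)
  have hℓ : ℓ.Prime := Fact.out
  have hSb := hB.toSb
  obtain ⟨⟨-, hnl, -, -, -, -, -, -⟩, -, gmul, gW, gk, gτ, -, -, -, gx⟩ :=
    hGea ℓ V₀ E₀ hq W hW
  obtain ⟨-, -, hRtop, -, -⟩ := hRwd ℓ V₀ E₀ hq
  obtain ⟨nbij, ncv, -, -, -, -, -⟩ := hNsd ℓ M hM hl2 V₀ G E₀ hq B hB ⊤ hRtop
  obtain ⟨tfc, texp, ttk, -, -, -, tch, tfin⟩ := hCzb ℓ M hM hl2 V₀ G E₀ hq B hSb ⊤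
  obtain ⟨-, -, -, -, -, -, wch, -⟩ := hCzb ℓ M hM hl2 V₀ G E₀ hq B hSb W
  obtain ⟨hχ1, hnu1, hχW, hχi, hχc⟩ := wch χ hχ
  obtain ⟨htt, hac⟩ := hAcb ℓ M hM hl2 V₀ G E₀ hq B hSb
  -- the degree
  obtain ⟨hD0, hDg⟩ := hB.dg ⊤ hRtop
  have hDC : (B.D ⊤ : ℂ) ≠ 0 := by exact_mod_cast hD0.ne'
  have hcC : (Nat.card (B.C ⊤) : ℂ) ≠ 0 := by exact_mod_cast Nat.card_pos.ne'
  have hkD : ∀ κ ∈ Ch B ⊤, κ 1 = B.D ⊤ := fun κ hκ => hDg _ hκ.2
  -- `lam` of the whole group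
  have hux : ∀ x, ((ux B.U ⊤ x : ℚ) : ℂ) = 1 := by
    intro x
    unfold ux
    rw [if_pos (Subgroup.mem_top x), Rat.cast_one]
  have hlcv : ∀ κ ∈ Ch B ⊤, ∀ x, cv (fc B ⊤ x) κ = lam B ⊤ κ x := by
    intro κ hκ x
    rw [ncv κ hκ x, hux, one_mul]
  have hlnu : ∀ κ ∈ Ch B ⊤, ∀ x, lam B ⊤ κ x = nu B κ x := by
    intro κ hκ x
    have h1 : fc B ⊤ x = tk B x (fc B ⊤ 1) := by
      funext g
      unfold tk
      rw [fc_top, fc_top, map_one, inv_one, one_mul]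
    have h2 := (ttk (fc B ⊤ 1) (tfc 1) x (Subgroup.mem_top x)).2 κ hκ
    rw [← h1, hlcv κ hκ, hlcv κ hκ, (nbij.1 hκ).1, mul_one] at h2
    exact h2
  -- multiplicities
  have hmul : ∀ κ : G → ℂ, ∃ m : ℕ, κ ∈ Ch B ⊤ →
      ∑ g, χ g * κ g⁻¹ = Nat.card (B.C ⊤) * (m : ℂ) := by
    intro κ
    by_cases hκ : κ ∈ Ch B ⊤
    · have hle : B.C ⊤ ≤ B.C W := by
        intro y hy
        rw [H33.mem_C] at hy ⊢
        exact fun w _ => hy w (Subgroup.mem_top w)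
      obtain ⟨m, hm⟩ := mult_nat (Subgroup.inclusion hle) hχ.2.1 hκ.2.1
      refine ⟨m, fun _ => ?_⟩
      rw [← hm, mul_inv_cancel_left₀ hcC, ← finsum_eq_sum_of_fintype,
        sum_C B ⊤ (fun g => χ g * κ g⁻¹) (fun g hg => by
          rw [hκ.1 g⁻¹ (fun h => hg ((B.C ⊤).inv_mem_iff.1 h)), mul_zero])]
      rfl
    · exact ⟨0, fun h => absurd h hκ⟩
  choose mk hmk using hmul
  obtain ⟨m, hm⟩ : ∃ m : (V₀ → ℂ) → ℕ, ∀ κ ∈ Ch B ⊤, m (lam B ⊤ κ) = mk κ := by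
    refine ⟨fun μ => if h : ∃ κ, κ ∈ Ch B ⊤ ∧ lam B ⊤ κ = μ then mk h.choose else 0, ?_⟩
    intro κ hκ
    have h : ∃ κ', κ' ∈ Ch B ⊤ ∧ lam B ⊤ κ' = lam B ⊤ κ := ⟨κ, hκ, rfl⟩
    beta_reduce
    rw [dif_pos h]
    exact congrArg mk (nbij.2.1 h.choose_spec.1 hκ h.choose_spec.2)
  -- (a1)
  have a1 : ∀ x, vx B χ x = ∑ᶠ μ ∈ lin V₀, (m μ : ℂ) * μ x := by
    intro x
    have h1 : ∑ᶠ g, fc B ⊤ x g * χ g =
        ∑ᶠ κ ∈ Ch B ⊤, (B.D ⊤ : ℂ) * ((mk κ : ℂ) * lam B ⊤ κ x) := by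
      rw [sum_C B ⊤ (fun g => fc B ⊤ x g * χ g) (fun g hg => by
        rw [(tfc x).sup g hg, zero_mul])]
      have h2 : ∀ t : B.C ⊤, fc B ⊤ x t * χ t = ∑ κ ∈ tfin.toFinset,
          lam B ⊤ κ x * (κ 1 / Nat.card (B.C ⊤)) * (κ (t : G)⁻¹ * χ t) := by
        intro t
        rw [texp _ (tfc x) t t.2, finsum_mem_eq_finite_toFinset_sum _ tfin, Finset.sum_mul]
        refine Finset.sum_congr rfl fun κ hκ => ?_
        rw [hlcv κ (tfin.mem_toFinset.1 hκ)]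
        ring
      rw [Finset.sum_congr rfl fun t _ => h2 t, Finset.sum_comm,
        finsum_mem_eq_finite_toFinset_sum _ tfin]
      refine Finset.sum_congr rfl fun κ hκ => ?_
      have hκ' := tfin.mem_toFinset.1 hκ
      rw [← Finset.mul_sum]
      have h3 : ∑ t : B.C ⊤, κ (t : G)⁻¹ * χ t = Nat.card (B.C ⊤) * (mk κ : ℂ) := by
        rw [← hmk κ hκ', ← finsum_eq_sum_of_fintype (fun g : G => χ g * κ g⁻¹),
          sum_C B ⊤ (fun g => χ g * κ g⁻¹) (fun g hg => by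
            rw [hκ'.1 g⁻¹ (fun h => hg ((B.C ⊤).inv_mem_iff.1 h)), mul_zero])]
        exact Finset.sum_congr rfl fun t _ => mul_comm _ _
      rw [h3, hkD κ hκ']
      field_simp
    rw [vx_eq, h1, finsum_mem_eq_finite_toFinset_sum _ tfin, ← Finset.mul_sum,
      mul_div_cancel_left₀ _ hDC, ← finsum_mem_eq_finite_toFinset_sum _ tfin]
    exact finsum_mem_eq_of_bijOn (lam B ⊤) nbij fun κ hκ => by rw [hm κ hκ]
  -- (a2)
  have a2 : ∀ τ ∈ St E₀ W, ∀ μ ∈ lin V₀, m (fun v => μ (τ v)) = m μ := by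
    intro τ hτ μ hμ
    obtain ⟨t1, t2⟩ := htt τ hτ.1
    obtain ⟨-, -, c3, c4, -⟩ := hac ⊤ τ hτ.1
    have htC : tt B τ ∈ B.C W := by
      rw [H33.mem_C]
      intro w hw
      have h1 := t2 w
      rw [hτ.2 w hw, mul_inv_eq_iff_eq_mul] at h1
      exact h1.symm
    obtain ⟨κ', hκ', rfl⟩ := nbij.2.2 hμ
    rw [← mp_top τ] at hκ'
    obtain ⟨κ, hκ, rfl⟩ := c4.2.2 hκ'
    rw [mp_top τ] at hκ'
    obtain ⟨-, -, -, c5, -⟩ := c3 κ hκ
    have h2 : (fun v => lam B ⊤ (ac B τ κ) (τ v)) = lam B ⊤ κ := by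
      funext v
      rw [hlnu _ hκ', hlnu _ hκ, c5]
    rw [h2, hm κ hκ, hm _ hκ']
    have h3 : (Nat.card (B.C ⊤) : ℂ) * (mk κ : ℂ) = Nat.card (B.C ⊤) * (mk (ac B τ κ) : ℂ) := by
      rw [← hmk κ hκ, ← hmk _ hκ', ← Equiv.sum_comp (MulAut.conj (tt B τ)).toEquiv
        (fun g => χ g * ac B τ κ g⁻¹)]
      refine Finset.sum_congr rfl fun g _ => ?_
      show χ g * κ g⁻¹ = χ (tt B τ * g * (tt B τ)⁻¹) *
        κ ((tt B τ)⁻¹ * (tt B τ * g * (tt B τ)⁻¹)⁻¹ * tt B τ)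
      rw [hχc _ htC g]
      have h4 : (tt B τ)⁻¹ * (tt B τ * g * (tt B τ)⁻¹)⁻¹ * tt B τ = g⁻¹ := by group
      rw [h4]
    have h5 := mul_left_cancel₀ hcC h3
    exact_mod_cast h5
  -- (a3)
  have a3 : ∀ μ ∈ lin V₀, m μ ≠ 0 → ∀ w ∈ W, μ w = nu B χ w := by
    intro μ hμ hm0 w hw
    obtain ⟨κ, hκ, rfl⟩ := nbij.2.2 hμ
    rw [hm κ hκ] at hm0
    obtain ⟨k1, k2, k3, k4, k5⟩ := tch κ hκ
    obtain ⟨-, k6, k7⟩ := k3 w⁻¹ (Subgroup.mem_top _)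
    obtain ⟨-, w1, w2⟩ := hχW w hw
    have h0 : ∑ g, χ g * κ g⁻¹ ≠ 0 := by
      rw [hmk κ hκ]
      exact mul_ne_zero hcC (by exact_mod_cast hm0)
    have h1 : ∑ g, χ g * κ g⁻¹ = (nu B χ w * nu B κ w⁻¹) * ∑ g, χ g * κ g⁻¹ := by
      rw [Finset.mul_sum, ← Equiv.sum_comp (Equiv.mulLeft (B.i w)) (fun g => χ g * κ g⁻¹)]
      refine Finset.sum_congr rfl fun g _ => ?_
      show χ (B.i w * g) * κ (B.i w * g)⁻¹ = _
      have h2 : κ (B.i w * g)⁻¹ = nu B κ w⁻¹ * κ g⁻¹ := by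
        have h3 := k5 (B.i w)⁻¹ ((B.C ⊤).inv_mem (H33.i_mem_C B ⊤ w)) (g⁻¹ * (B.i w)⁻¹)
        have h4 : (B.i w)⁻¹ * (g⁻¹ * (B.i w)⁻¹) * (B.i w)⁻¹⁻¹ = B.i w⁻¹ * g⁻¹ := by
          rw [map_inv]
          group
        rw [h4, k6] at h3
        rw [mul_inv_rev, ← h3]
      rw [h2, w1]
      ring
    have h2 : nu B χ w * nu B κ w⁻¹ = 1 := by
      have h3 : (nu B χ w * nu B κ w⁻¹ - 1) * ∑ g, χ g * κ g⁻¹ = 0 := by
        rw [sub_mul, ← h1]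
        ring
      rcases mul_eq_zero.1 h3 with h4 | h4
      · exact sub_eq_zero.1 h4
      · exact absurd h4 h0
    have h3 : nu B κ w⁻¹ * nu B κ w = 1 := by
      rw [← k7 w (Subgroup.mem_top _), inv_mul_cancel, k2]
    rw [hlnu κ hκ]
    calc nu B κ w = (nu B χ w * nu B κ w⁻¹) * nu B κ w := by rw [h2, one_mul]
      _ = nu B χ w * (nu B κ w⁻¹ * nu B κ w) := by ring
      _ = nu B χ w := by rw [h3, mul_one]
  refine ⟨⟨m, a1, a2, a3⟩, ⟨?_, ?_, ?_, ?_, ?_, ?_⟩, ?_⟩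
  · -- (b1)
    intro w hw x
    unfold vx
    rw [mul_div_assoc']
    congr 1
    rw [finsum_eq_sum_of_fintype, finsum_eq_sum_of_fintype, Finset.mul_sum]
    refine Finset.sum_congr rfl fun s _ => ?_
    rw [map_mul, mul_assoc, (hχW w hw).2.1]
    ring
  · -- (b2)
    intro x
    have hlf : (lin V₀).Finite := by
      have h1 := tfin.image (lam B ⊤)
      rwa [nbij.image_eq] at h1
    rw [a1, a1, finsum_mem_eq_finite_toFinset_sum _ hlf, finsum_mem_eq_finite_toFinset_sum _ hlf,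
      map_sum]
    refine Finset.sum_congr rfl fun μ hμ => ?_
    have hμ' := hlf.mem_toFinset.1 hμ
    rw [map_mul, Complex.conj_natCast]
    congr 1
    obtain ⟨κ, hκ, rfl⟩ := nbij.2.2 hμ'
    obtain ⟨-, -, k3, -, -⟩ := tch κ hκ
    rw [hlnu κ hκ, hlnu κ hκ]
    exact (k3 x (Subgroup.mem_top x)).1
  · -- (b3)
    intro τ hτ x
    rw [a1, a1]
    symm
    refine finsum_mem_eq_of_bijOn (fun μ : V₀ → ℂ => fun v => μ (τ⁻¹ v)) ⟨?_, ?_, ?_⟩ ?_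
    · intro μ hμ
      exact ⟨by show μ (τ⁻¹ 1) = 1; rw [map_one]; exact hμ.1, fun v w => by
        show μ (τ⁻¹ (v * w)) = μ (τ⁻¹ v) * μ (τ⁻¹ w)
        rw [map_mul]
        exact hμ.2 _ _⟩
    · intro μ _ μ' _ h
      funext v
      have h1 := congrFun h (τ v)
      beta_reduce at h1
      rwa [MulAut.inv_apply_self] at h1
    · intro μ hμ
      refine ⟨fun v => μ (τ v), ⟨by show μ (τ 1) = 1; rw [map_one]; exact hμ.1, fun v w => by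
        show μ (τ (v * w)) = μ (τ v) * μ (τ w)
        rw [map_mul]
        exact hμ.2 _ _⟩, ?_⟩
      funext v
      show μ (τ (τ⁻¹ v)) = μ v
      rw [MulAut.apply_inv_self]
    · intro μ hμ
      beta_reduce
      rw [MulAut.inv_apply_self, a2 τ⁻¹ ((St E₀ W).inv_mem hτ) μ hμ]
  · -- (b4)
    refine ⟨fun v => nu B χ (pr ℓ E₀ W v), ⟨⟨?_, ?_⟩, ?_⟩, hχ, ?_⟩
    · show nu B χ (pr ℓ E₀ W 1) = 1
      rw [gW 1 (Subgroup.one_mem W), hnu1]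
    · intro v w
      show nu B χ (pr ℓ E₀ W (v * w)) = _
      have hpr := (hGea ℓ V₀ E₀ hq W hW).2.1
      rw [gmul, (hχW _ (hpr v).1).2.2 _ (hpr w).1]
    · intro y hy
      show nu B χ (pr ℓ E₀ W y) = 1
      rw [gk y hy, hnu1]
    · intro w hw
      show nu B χ w = nu B χ (pr ℓ E₀ W w)
      rw [gW w hw]
  · -- (b5)
    intro w hw g
    exact (hχW w hw).2.1 g
  · -- (b6)
    intro w hw
    refine ⟨(hχW w hw).1, ?_⟩
    rw [← (hχW w hw).2.2 _ (W.inv_mem hw), mul_inv_cancel, hnu1]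
  · -- (c)
    intro x hx
    obtain ⟨hxt, hxτ⟩ := gx x hx
    have c1 : cv (fc B W x) χ =
        Nat.card (B.C W) * B.D ⊤ / (Nat.card (B.C ⊤) * χ 1) * vx B χ x := by
      have h1 : ∑ᶠ g, fc B W x g * χ g = (Nat.card (B.C ⊤) : ℂ)⁻¹ *
          (Nat.card (B.C W) * ∑ s, bh B ⊤ s * χ (B.i x * s)) := by
        have h2 : ∀ g, fc B W x g * χ g = (Nat.card (B.C ⊤) : ℂ)⁻¹ *
            ∑ z : B.C W, bh B ⊤ ((B.i x)⁻¹ * ((z : G)⁻¹ * g * z)) *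
              χ ((z : G)⁻¹ * g * z) := by
          intro g
          unfold fc
          rw [hxt, finsum_eq_sum_of_fintype, mul_assoc, Finset.sum_mul]
          congr 1
          refine Finset.sum_congr rfl fun z _ => ?_
          have h3 := hχc (z : G)⁻¹ ((B.C W).inv_mem z.2) g
          rw [inv_inv] at h3
          rw [h3]
        rw [finsum_eq_sum_of_fintype, Finset.sum_congr rfl fun g _ => h2 g, ← Finset.mul_sum,
          Finset.sum_comm]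
        congr 1
        have h3 : ∀ z : B.C W, ∑ g, bh B ⊤ ((B.i x)⁻¹ * ((z : G)⁻¹ * g * z)) *
            χ ((z : G)⁻¹ * g * z) = ∑ s, bh B ⊤ s * χ (B.i x * s) := by
          intro z
          rw [← Equiv.sum_comp (MulAut.conj (z : G)).toEquiv,
            ← Equiv.sum_comp (Equiv.mulLeft (B.i x))]
          refine Finset.sum_congr rfl fun s _ => ?_
          show bh B ⊤ ((B.i x)⁻¹ * ((z : G)⁻¹ * (z * (B.i x * s) * (z : G)⁻¹) * z)) *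
            χ ((z : G)⁻¹ * (z * (B.i x * s) * (z : G)⁻¹) * z) = _
          have h4 : (z : G)⁻¹ * (z * (B.i x * s) * (z : G)⁻¹) * z = B.i x * s := by group
          rw [h4, inv_mul_cancel_left]
        rw [Finset.sum_congr rfl fun z _ => h3 z, Finset.sum_const, Finset.card_univ,
          nsmul_eq_mul, Nat.card_eq_fintype_card]
      unfold cv vx
      rw [h1, finsum_eq_sum_of_fintype]
      field_simp
    obtain ⟨-, B', hB', -, -, -, -, -, -, -, hch, -⟩ := hRda ℓ M hM hl2 V₀ G E₀ hq B hSb W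
    obtain ⟨e1, e2⟩ := hch χ hχ.1
    obtain ⟨r1, r2⟩ := hHomr ℓ M hM V₀ (St E₀ W) (B.C W) B' hB' x _ (e1.1 hχ)
    rw [e2 x] at r1 r2
    have hnE : nE (St E₀ W) x = nS E₀ W := by
      unfold nE nS
      have h1 : Es (St E₀ W) x = ⊥ := by
        rw [Subgroup.eq_bot_iff_forall]
        exact fun τ hτ => hxτ τ hτ.1 hτ.2
      rw [h1, Subgroup.card_bot, Nat.div_one]
    rw [hnE] at r2
    refine ⟨c1, r1, r2, ?_⟩
    intro h0
    rw [c1, h0, mul_zero, rr_zero] at r2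
    have hch : CharP (FF M) ℓ := (H50.fld ℓ Fact.out M hM).char
    exact hnl ((CharP.cast_eq_zero_iff (FF M) ℓ _).1 r2.symm)

end Pool.Agent.PP.SE.H66
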